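import Mathlib

/-!
# Polynomials `A` with `A(0) = 1` and `|1 - z| |A(z)|² ≤ 1 + small` on the unit circle
-/

set_option autoImplicit false

open Polynomial Finset

namespace Pool.Agent.H589.Few

noncomputable section

/-- The coefficients of `(1 - x)^(-1/2)`. -/
def cc (n : ℕ) : ℝ := Ring.multichoose (1 / 2 : ℝ) n

lemma cc_zero : cc 0 = 1 := by
  unfold cc
  exact Ring.multichoose_zero_right _

lemma cc_nonneg (n : ℕ) : 0 ≤ cc n := by
  unfold cc
  have h := Ring.factorial_nsmul_multichoose_eq_ascPochhammer (1 / 2 : ℝ) n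
  rw [ascPochhammer_smeval_eq_eval] at h
  have h2 : 0 < (ascPochhammer ℝ n).eval (1/2 : ℝ) := ascPochhammer_pos n _ (by norm_num)
  rw [← h, nsmul_eq_mul] at h2
  have h3 : (0:ℝ) < (n.factorial : ℝ) := by exact_mod_cast Nat.factorial_pos n
  exact (pos_of_mul_pos_right h2 h3.le).le

lemma cc_conv (n : ℕ) : ∑ ij ∈ antidiagonal n, cc ij.1 * cc ij.2 = 1 := by
  have h := Ring.add_choose_eq (R := ℝ) (r := -(1/2)) (s := -(1/2)) n (Commute.all _ _)
  have h1 : (-(1/2) + -(1/2) : ℝ) = -1 := by norm_num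
  rw [h1, Ring.choose_neg'] at h
  have h2 : ∀ ij ∈ antidiagonal n, Ring.choose (-(1/2) : ℝ) ij.1 * Ring.choose (-(1/2) : ℝ) ij.2
      = Int.negOnePow n • (cc ij.1 * cc ij.2) := by
    intro ij hij
    rw [Ring.choose_neg', Ring.choose_neg']
    rw [HasAntidiagonal.mem_antidiagonal] at hij
    have : (Int.negOnePow (n : ℤ)) = Int.negOnePow (ij.1 : ℤ) * Int.negOnePow (ij.2 : ℤ) := by
      rw [← Int.negOnePow_add, ← hij]; push_cast; rfl
    rw [this]
    unfold cc
    rw [smul_mul_smul_comm]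
  rw [Finset.sum_congr rfl h2, ← Finset.smul_sum, Ring.multichoose_one] at h
  have h3 := smul_left_cancel _ h
  exact h3.symm

/-- The truncated series. -/
def AK (ρ : ℝ) (K : ℕ) : ℂ[X] := ∑ k ∈ range K, C ((cc k * ρ ^ k : ℝ) : ℂ) * X ^ k

lemma AK_natDegree_le (ρ : ℝ) (K : ℕ) : (AK ρ K).natDegree ≤ K := by
  unfold AK
  apply natDegree_sum_le_of_forall_le
  intro k hk
  refine (natDegree_C_mul_X_pow_le _ _).trans (by simp at hk; omega)

lemma AK_eval_zero (ρ : ℝ) (K : ℕ) (hK : 0 < K) : (AK ρ K).eval 0 = 1 := by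
  unfold AK
  rw [eval_finsetSum, Finset.sum_eq_single 0]
  · simp [cc_zero]
  · intro b _ hb
    simp [hb]
  · intro h
    simp at h
    omega

lemma AK_eval (ρ : ℝ) (K : ℕ) (z : ℂ) :
    (AK ρ K).eval z = ∑ k ∈ range K, (cc k : ℂ) * ((ρ : ℂ) * z) ^ k := by
  unfold AK
  rw [eval_finsetSum]
  refine Finset.sum_congr rfl fun k _ => ?_
  simp [mul_pow]
  ring

/-- square of a truncated series. -/
lemma sq_trunc (K : ℕ) (x : ℂ) (r : ℝ) (hr0 : 0 ≤ r) (hr : r < 1) (hx : ‖x‖ = r) :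
    ‖(1 - x) * (∑ k ∈ range K, (cc k : ℂ) * x ^ k) ^ 2‖ ≤ 1 + 3 * (r ^ K / (1 - r)) := by
  classical
  -- split the square
  have hsq : (∑ k ∈ range K, (cc k : ℂ) * x ^ k) ^ 2 =
      ∑ n ∈ range (2 * K), (∑ ij ∈ (antidiagonal n).filter (fun ij => ij.1 < K ∧ ij.2 < K),
        (cc ij.1 * cc ij.2 : ℂ)) * x ^ n := by
    rw [sq, Finset.sum_mul_sum, ← Finset.sum_product']
    rw [← Finset.sum_fiberwise_of_maps_to (s := range K ×ˢ range K) (t := range (2 * K))
      (g := fun ij => ij.1 + ij.2)]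
    · refine Finset.sum_congr rfl fun n _ => ?_
      rw [Finset.sum_mul]
      have : (range K ×ˢ range K).filter (fun ij => ij.1 + ij.2 = n) =
          (antidiagonal n).filter (fun ij => ij.1 < K ∧ ij.2 < K) := by
        ext ij
        simp only [Finset.mem_filter, Finset.mem_product, Finset.mem_range, HasAntidiagonal.mem_antidiagonal]
        tauto
      rw [this]
      refine Finset.sum_congr rfl fun ij hij => ?_
      rw [Finset.mem_filter, HasAntidiagonal.mem_antidiagonal] at hij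
      rw [← hij.1, pow_add]
      ring
    · intro ij hij
      simp only [Finset.mem_product, Finset.mem_range] at hij ⊢
      omega
  set d : ℕ → ℝ := fun n => ∑ ij ∈ (antidiagonal n).filter (fun ij => ij.1 < K ∧ ij.2 < K),
        (cc ij.1 * cc ij.2) with hd
  have hsq' : (∑ k ∈ range K, (cc k : ℂ) * x ^ k) ^ 2 = ∑ n ∈ range (2 * K), (d n : ℂ) * x ^ n := by
    rw [hsq]
    refine Finset.sum_congr rfl fun n _ => ?_
    rw [hd]
    push_cast
    rfl
  have hd0 : ∀ n, 0 ≤ d n := fun n => Finset.sum_nonneg fun ij _ => mul_nonneg (cc_nonneg _) (cc_nonneg _)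
  have hd1 : ∀ n, d n ≤ 1 := by
    intro n
    rw [← cc_conv n]
    exact Finset.sum_le_sum_of_subset_of_nonneg (Finset.filter_subset _ _)
      fun ij _ _ => mul_nonneg (cc_nonneg _) (cc_nonneg _)
  have hd2 : ∀ n, n < K → d n = 1 := by
    intro n hn
    rw [← cc_conv n, hd]
    simp only
    rw [Finset.filter_true_of_mem]
    intro ij hij
    rw [HasAntidiagonal.mem_antidiagonal] at hij
    omega
  have hsplit : (∑ k ∈ range K, (cc k : ℂ) * x ^ k) ^ 2 =
      ∑ n ∈ range K, x ^ n + ∑ n ∈ Finset.Ico K (2 * K), (d n : ℂ) * x ^ n := by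
    rw [hsq']
    rw [← Finset.sum_range_add_sum_Ico _ (show K ≤ 2 * K by omega)]
    congr 1
    refine Finset.sum_congr rfl fun n hn => ?_
    rw [hd2 n (Finset.mem_range.mp hn)]
    simp
  have htail : ‖∑ n ∈ Finset.Ico K (2 * K), (d n : ℂ) * x ^ n‖ ≤ r ^ K / (1 - r) := by
    calc ‖∑ n ∈ Finset.Ico K (2 * K), (d n : ℂ) * x ^ n‖
        ≤ ∑ n ∈ Finset.Ico K (2 * K), r ^ n := by
          refine (norm_sum_le _ _).trans (Finset.sum_le_sum fun n _ => ?_)
          rw [norm_mul, norm_pow, hx, Complex.norm_real, Real.norm_of_nonneg (hd0 n)]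
          calc d n * r ^ n ≤ 1 * r ^ n := by
                apply mul_le_mul_of_nonneg_right (hd1 n) (by positivity)
            _ = r ^ n := one_mul _
      _ ≤ r ^ K / (1 - r) := by
          rw [Finset.sum_Ico_eq_sum_range]
          have : ∀ n ∈ range (2 * K - K), r ^ (K + n) = r ^ K * r ^ n := fun n _ => pow_add _ _ _
          rw [Finset.sum_congr rfl this, ← Finset.mul_sum, div_eq_mul_inv]
          apply mul_le_mul_of_nonneg_left _ (by positivity)
          rw [geom_sum_eq hr.ne]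
          rw [← one_div, div_le_iff_of_neg (by linarith)]
          have : (1:ℝ) / (1 - r) * (r - 1) = -1 := by
            field_simp [show (1 - r) ≠ 0 by linarith]
            ring
          rw [this]
          have : 0 ≤ r ^ (2 * K - K) := by positivity
          linarith
  rw [hsplit, mul_add, mul_neg_geom_sum]
  have h1r : 0 < 1 - r := by linarith
  have hrK : 0 ≤ r ^ K := by positivity
  have hrK1 : r ^ K ≤ r ^ K / (1 - r) := by
    rw [le_div_iff₀ h1r]
    nlinarith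
  calc ‖(1 - x ^ K) + (1 - x) * ∑ n ∈ Finset.Ico K (2 * K), (d n : ℂ) * x ^ n‖
      ≤ ‖(1 : ℂ) - x ^ K‖ + ‖(1 - x)‖ * ‖∑ n ∈ Finset.Ico K (2 * K), (d n : ℂ) * x ^ n‖ := by
        refine (norm_add_le _ _).trans ?_
        rw [norm_mul]
    _ ≤ (1 + r ^ K) + 2 * (r ^ K / (1 - r)) := by
        gcongr
        · refine (norm_sub_le _ _).trans ?_
          rw [norm_one, norm_pow, hx]
        · refine (norm_sub_le _ _).trans ?_
          rw [norm_one, hx]
          linarith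
    _ ≤ 1 + 3 * (r ^ K / (1 - r)) := by linarith

lemma one_sub_le (u : ℂ) (hu : ‖u‖ = 1) (ρ : ℝ) (h0 : 0 ≤ ρ) :
    ‖1 - u‖ ≤ 2 / (1 + ρ) * ‖1 - (ρ : ℂ) * u‖ := by
  have e1 : ‖1 - u‖ ^ 2 = 2 - 2 * u.re := by
    rw [← Complex.normSq_eq_norm_sq, Complex.normSq_apply]
    have : u.re * u.re + u.im * u.im = 1 := by
      have := Complex.normSq_eq_norm_sq u
      rw [Complex.normSq_apply, hu] at this
      linarith
    simp
    nlinarith
  have e2 : ‖1 - (ρ : ℂ) * u‖ ^ 2 = (1 - ρ) ^ 2 + ρ * (2 - 2 * u.re) := by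
    rw [← Complex.normSq_eq_norm_sq, Complex.normSq_apply]
    have : u.re * u.re + u.im * u.im = 1 := by
      have := Complex.normSq_eq_norm_sq u
      rw [Complex.normSq_apply, hu] at this
      linarith
    simp
    nlinarith
  have hre : |u.re| ≤ 1 := by rw [← hu]; exact Complex.abs_re_le_norm u
  rw [abs_le] at hre
  have key : ‖1 - u‖ ^ 2 ≤ (2 / (1 + ρ) * ‖1 - (ρ : ℂ) * u‖) ^ 2 := by
    rw [mul_pow, e1, e2, div_pow, div_mul_eq_mul_div, le_div_iff₀ (by positivity)]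
    nlinarith [mul_nonneg (sq_nonneg (1 - ρ)) (show 0 ≤ 1 + u.re by linarith)]
  exact le_of_sq_le_sq key (by positivity)

/-- Key estimate. -/
lemma AK_bound (ρ : ℝ) (K : ℕ) (h0 : 0 ≤ ρ) (h1 : ρ < 1) (z : ℂ) (hz : ‖z‖ = 1) :
    ‖1 - z‖ * ‖(AK ρ K).eval z‖ ^ 2 ≤ 2 / (1 + ρ) * (1 + 3 * (ρ ^ K / (1 - ρ))) := by
  have hx : ‖(ρ : ℂ) * z‖ = ρ := by
    rw [norm_mul, hz, mul_one, Complex.norm_real, Real.norm_of_nonneg h0]
  have h := sq_trunc K ((ρ : ℂ) * z) ρ h0 h1 hx
  rw [← AK_eval, norm_mul, norm_pow] at h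
  calc ‖1 - z‖ * ‖(AK ρ K).eval z‖ ^ 2
      ≤ (2 / (1 + ρ) * ‖1 - (ρ : ℂ) * z‖) * ‖(AK ρ K).eval z‖ ^ 2 := by
        gcongr
        exact one_sub_le z hz ρ h0
    _ = 2 / (1 + ρ) * (‖1 - (ρ : ℂ) * z‖ * ‖(AK ρ K).eval z‖ ^ 2) := by ring
    _ ≤ _ := by gcongr

end

end Pool.Agent.H589.Few
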