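import Mathlib

/-!
# Circle averages: coefficients, `log⁺`
-/

set_option autoImplicit false

open Polynomial Finset Real

namespace Pool.Agent.H589.Few

noncomputable section

lemma circ_cont (f : ℂ → ℝ) (hf : Continuous f) : CircleIntegrable f 0 1 :=
  hf.continuousOn.circleIntegrable zero_le_one

lemma circ_contC (f : ℂ → ℂ) (hf : Continuous f) : CircleIntegrable f 0 1 :=
  hf.continuousOn.circleIntegrable zero_le_one

lemma avg_pow (m n : ℕ) :
    circleAverage (fun z : ℂ => ((starRingEnd ℂ) z) ^ m * z ^ n) 0 1 = if m = n then 1 else 0 := by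
  have h1 : circleAverage (fun z : ℂ => ((starRingEnd ℂ) z) ^ m * z ^ n) 0 1 =
      circleAverage (fun z : ℂ => z ^ ((n : ℤ) - m)) 0 1 := by
    apply circleAverage_congr_sphere
    intro z hz
    simp only [abs_one, mem_sphere_iff_norm, sub_zero] at hz
    have hz0 : z ≠ 0 := by
      intro h; rw [h, norm_zero] at hz; exact zero_ne_one hz
    have hc : (starRingEnd ℂ) z = z⁻¹ := by
      symm
      apply inv_eq_of_mul_eq_one_right
      rw [Complex.mul_conj, Complex.normSq_eq_norm_sq, hz]
      norm_num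
    simp only
    rw [hc, zpow_sub₀ hz0, zpow_natCast, zpow_natCast, inv_pow]
    field_simp
  rw [h1, circleAverage_eq_circleIntegral one_ne_zero]
  have h2 : (∮ z in C(0, 1), (z - 0)⁻¹ • z ^ ((n : ℤ) - m)) =
      ∮ z in C(0, 1), (z - 0) ^ ((n : ℤ) - m - 1) := by
    apply circleIntegral.integral_congr zero_le_one
    intro z hz
    simp only [mem_sphere_iff_norm, sub_zero] at hz
    have hz0 : z ≠ 0 := by
      intro h; rw [h, norm_zero] at hz; exact zero_ne_one hz
    simp only [sub_zero, smul_eq_mul]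
    rw [zpow_sub_one₀ hz0]
    ring
  rw [h2]
  by_cases hmn : m = n
  · rw [if_pos hmn, hmn]
    have h3 : ((n : ℤ) - n - 1) = -1 := by ring
    rw [h3]
    simp only [zpow_neg_one]
    rw [circleIntegral.integral_sub_inv_of_mem_ball (by simp)]
    rw [smul_eq_mul]
    field_simp
  · rw [if_neg hmn]
    rw [circleIntegral.integral_sub_zpow_of_ne (by omega)]
    simp

lemma avg_coeff (P : ℂ[X]) (m : ℕ) :
    circleAverage (fun z : ℂ => ((starRingEnd ℂ) z) ^ m * P.eval z) 0 1 = P.coeff m := by
  have h1 : (fun z : ℂ => ((starRingEnd ℂ) z) ^ m * P.eval z) =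
      fun z => ∑ n ∈ range (P.natDegree + 1), P.coeff n • (((starRingEnd ℂ) z) ^ m * z ^ n) := by
    funext z
    rw [eval_eq_sum_range, Finset.mul_sum]
    refine Finset.sum_congr rfl fun n _ => ?_
    rw [smul_eq_mul]
    ring
  rw [h1, circleAverage_fun_sum]
  · simp only [circleAverage_fun_smul, avg_pow]
    simp only [smul_eq_mul, mul_ite, mul_one, mul_zero]
    rw [Finset.sum_ite_eq]
    split_ifs with h
    · rfl
    · rw [Finset.mem_range, not_lt] at h
      exact (coeff_eq_zero_of_natDegree_lt (by omega)).symm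
  · intro n _
    apply circ_contC
    fun_prop

lemma coeff_norm_le (P : ℂ[X]) (M : ℝ) (h : ∀ z : ℂ, ‖z‖ = 1 → ‖P.eval z‖ ≤ M) (m : ℕ) :
    ‖P.coeff m‖ ≤ M := by
  rw [← avg_coeff P m, circleAverage_def, norm_smul]
  have h1 : ‖∫ θ in (0:ℝ)..2 * π, (fun z : ℂ => ((starRingEnd ℂ) z) ^ m * P.eval z)
      (circleMap 0 1 θ)‖ ≤ M * |2 * π - 0| := by
    apply intervalIntegral.norm_integral_le_of_norm_le_const
    intro θ _
    have hz : ‖circleMap 0 1 θ‖ = 1 := by simp
    rw [norm_mul, norm_pow, Complex.norm_conj, hz, one_pow, one_mul]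
    exact h _ hz
  rw [sub_zero, abs_of_pos Real.two_pi_pos] at h1
  rw [norm_inv, Real.norm_of_nonneg Real.two_pi_pos.le]
  rw [inv_mul_le_iff₀ Real.two_pi_pos]
  linarith

/-- Jensen for `log⁺`. -/
lemma avg_posLog_le (f : ℂ → ℝ) (hf : Continuous f) (hf0 : ∀ z, 0 ≤ f z) (S : ℝ)
    (hS : circleAverage f 0 1 ≤ S) :
    circleAverage (fun z => log⁺ (f z)) 0 1 ≤ Real.log (1 + S) := by
  have hS0 : 0 ≤ S := by
    refine le_trans ?_ hS
    exact circleAverage_nonneg_of_nonneg (fun z _ => hf0 z)
  have h1S : 0 < 1 + S := by linarith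
  have hpt : ∀ z, log⁺ (f z) ≤ (Real.log (1 + S) - S / (1 + S)) + (1 / (1 + S)) * f z := by
    intro z
    have ha : log⁺ (f z) ≤ Real.log (1 + f z) := by
      rw [posLog_eq_log_max_one (hf0 z)]
      apply Real.log_le_log (by positivity)
      rcases max_choice 1 (f z) with h | h <;> rw [h] <;> linarith [hf0 z]
    have hb : Real.log ((1 + f z) / (1 + S)) ≤ (1 + f z) / (1 + S) - 1 :=
      Real.log_le_sub_one_of_pos (by have := hf0 z; positivity)
    rw [Real.log_div (by have := hf0 z; positivity) h1S.ne'] at hb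
    have hc : (1 + f z) / (1 + S) - 1 = - (S / (1 + S)) + (1 / (1 + S)) * f z := by
      field_simp
      ring
    linarith
  have h2 := circleAverage_mono (c := 0) (R := 1) (circ_cont _ (continuous_posLog.comp hf))
    (circ_cont (fun z => (Real.log (1 + S) - S / (1 + S)) + (1 / (1 + S)) * f z)
      (by fun_prop)) (fun z _ => hpt z)
  refine h2.trans ?_
  have h3 : circleAverage (fun z => (Real.log (1 + S) - S / (1 + S)) + (1 / (1 + S)) * f z) 0 1 =
      (Real.log (1 + S) - S / (1 + S)) + (1 / (1 + S)) * circleAverage f 0 1 := by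
    rw [circleAverage_fun_add (circ_cont _ continuous_const) (circ_cont _ (by fun_prop))]
    rw [circleAverage_const]
    congr 1
    have := circleAverage_fun_smul (a := (1 / (1 + S))) (f := f) (c := 0) (R := 1)
    simpa only [smul_eq_mul] using this
  rw [h3]
  have h4 : (1 / (1 + S)) * circleAverage f 0 1 ≤ (1 / (1 + S)) * S := by
    gcongr
  have h5 : (1 / (1 + S)) * S = S / (1 + S) := by ring
  linarith

end

end Pool.Agent.H589.Few
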